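import Pool.Agent.Run7.h81.RP.I

/-!
# Piece AVG of project RP (helper81)
-/

set_option autoImplicit false

namespace Run7.h304.RP

open Finset
open Pool.Agent.Run7.h81.RP

lemma norm_one_sub_le (ρ θ : ℝ) (h0 : 0 ≤ ρ) (h1 : ρ ≤ 1) :
    ‖1 - (ρ : ℂ) * Complex.exp (Complex.I * θ)‖ ≤ (1 - ρ) + |θ| := by
  have h2 : (1 : ℂ) - (ρ : ℂ) * Complex.exp (Complex.I * θ) =
      ((1 - ρ : ℝ) : ℂ) - (ρ : ℂ) * (Complex.exp (Complex.I * θ) - 1) := by
    push_cast
    ring
  rw [h2]
  refine (norm_sub_le _ _).trans ?_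
  rw [norm_mul, Complex.norm_real, Complex.norm_real, Real.norm_of_nonneg (by linarith), Real.norm_of_nonneg h0]
  have h3 := Real.norm_exp_I_mul_ofReal_sub_one_le (x := θ)
  rw [Real.norm_eq_abs] at h3
  have h4 : ρ * ‖Complex.exp (Complex.I * θ) - 1‖ ≤ 1 * |θ| :=
    mul_le_mul h1 h3 (norm_nonneg _) zero_le_one
  linarith

/-- piece AVG -/
theorem avg : S_AVG := by
  classical
  intro n w hn hw1 hw2
  have hn0 : (0 : ℝ) < n := by exact_mod_cast hn
  have hnC : (n : ℂ) ≠ 0 := by exact_mod_cast hn.ne'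
  set ρ := ‖w‖ with hρ
  set φ := Complex.arg w with hφ
  have hρ0 : 0 ≤ ρ := norm_nonneg w
  have hw : w = (ρ : ℂ) * Complex.exp (φ * Complex.I) := (Complex.norm_mul_exp_arg_mul_I w).symm
  set l₀ : ℤ := ⌈-(φ * n / (2 * Real.pi))⌉ with hl₀
  have hpi := Real.pi_pos
  have hpi2 := Real.pi_lt_d2
  have hA : 0 ≤ φ + 2 * Real.pi * l₀ / n := by
    have h1 : -(φ * n / (2 * Real.pi)) ≤ l₀ := Int.le_ceil _
    have h2 : -(φ * n) ≤ 2 * Real.pi * l₀ := by
      have h3 : -(φ * n / (2 * Real.pi)) * (2 * Real.pi) ≤ l₀ * (2 * Real.pi) :=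
        mul_le_mul_of_nonneg_right h1 (by positivity)
      have h4 : -(φ * n / (2 * Real.pi)) * (2 * Real.pi) = -(φ * n) := by field_simp
      linarith
    have h5 : -φ ≤ 2 * Real.pi * l₀ / n := by
      rw [le_div_iff₀ hn0]
      linarith
    linarith
  have hB : φ + 2 * Real.pi * l₀ / n < 2 * Real.pi / n := by
    have h1 : (l₀ : ℝ) < -(φ * n / (2 * Real.pi)) + 1 := Int.ceil_lt_add_one _
    have h2 : 2 * Real.pi * l₀ < -(φ * n) + 2 * Real.pi := by
      have h3 : (l₀ : ℝ) * (2 * Real.pi) < (-(φ * n / (2 * Real.pi)) + 1) * (2 * Real.pi) :=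
        mul_lt_mul_of_pos_right h1 (by positivity)
      have h4 : (-(φ * n / (2 * Real.pi)) + 1) * (2 * Real.pi) = -(φ * n) + 2 * Real.pi := by field_simp
      linarith
    have h5 : 2 * Real.pi * l₀ / n < -φ + 2 * Real.pi / n := by
      rw [div_lt_iff₀ hn0]
      have : (-φ + 2 * Real.pi / n) * n = -(φ * n) + 2 * Real.pi := by field_simp
      linarith
    linarith
  set e : ℕ → ℕ := fun i => ((l₀ + i) % (n : ℤ)).toNat with he
  have hnZ : (0 : ℤ) < n := by exact_mod_cast hn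
  have heq : ∀ i : ℕ, ((e i : ℕ) : ℤ) = (l₀ + i) % (n : ℤ) := fun i =>
    Int.toNat_of_nonneg (Int.emod_nonneg _ hnZ.ne')
  have hlt : ∀ i : ℕ, e i < n := by
    intro i
    have := Int.emod_lt_of_pos (l₀ + i) hnZ
    rw [← heq i] at this
    exact_mod_cast this
  have hinj : Set.InjOn e (range n) := by
    intro x hx y hy hxy
    rw [mem_coe, mem_range] at hx hy
    have h1 : (l₀ + x) % (n : ℤ) = (l₀ + y) % (n : ℤ) := by
      rw [← heq x, ← heq y, hxy]
    have h2 : (x : ℤ) % n = (y : ℤ) % n := by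
      have h3 := Int.ModEq.add_left_cancel' l₀ h1
      exact h3
    rw [Int.emod_eq_of_lt (by positivity) (by exact_mod_cast hx), Int.emod_eq_of_lt (by positivity) (by exact_mod_cast hy)] at h2
    exact_mod_cast h2
  have hterm : ∀ i ∈ range n, (n : ℝ) / (8 * ((i : ℝ) + 1)) ≤
      1 / ‖1 - Complex.exp (2 * Real.pi * Complex.I * ((e i : ℕ) / n)) * w‖ := by
    intro i hi
    set θ : ℝ := φ + 2 * Real.pi * (l₀ + i) / n with hθ
    have h1 : Complex.exp (2 * Real.pi * Complex.I * ((e i : ℕ) / n)) * w =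
        (ρ : ℂ) * Complex.exp (Complex.I * θ) := by
      have h2 : ((e i : ℕ) : ℂ) = (l₀ : ℂ) + i - n * ((l₀ + i) / (n : ℤ) : ℤ) := by
        have h3 : ((e i : ℕ) : ℤ) = l₀ + i - n * ((l₀ + i) / (n : ℤ)) := by
          rw [heq i]
          have := Int.emod_add_mul_ediv (l₀ + i) n
          linarith
        have h4 : (((e i : ℕ) : ℤ) : ℂ) = ((l₀ + i - n * ((l₀ + i) / (n : ℤ)) : ℤ) : ℂ) := by rw [h3]
        push_cast at h4
        exact h4
      set q : ℤ := (l₀ + i) / (n : ℤ) with hq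
      rw [h2]
      have h5 : 2 * (Real.pi : ℂ) * Complex.I * (((l₀ : ℂ) + i - n * q) / n) =
          2 * (Real.pi : ℂ) * Complex.I * ((l₀ + i) / n) - q * (2 * Real.pi * Complex.I) := by
        field_simp
      rw [h5, Complex.exp_sub, Complex.exp_int_mul_two_pi_mul_I, div_one]
      conv_lhs => rw [hw]
      rw [mul_left_comm, ← Complex.exp_add]
      congr 2
      rw [hθ]
      push_cast
      ring
    rw [h1]
    have hθ0 : 0 ≤ θ := by
      have h6 : θ = (φ + 2 * Real.pi * l₀ / n) + 2 * Real.pi * i / n := by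
        rw [hθ]; ring
      rw [h6]
      positivity
    have hθ1 : θ ≤ 2 * Real.pi * (i + 1) / n := by
      have h6 : θ = (φ + 2 * Real.pi * l₀ / n) + 2 * Real.pi * i / n := by
        rw [hθ]; ring
      have h7 : 2 * Real.pi * ((i : ℝ) + 1) / n = 2 * Real.pi / n + 2 * Real.pi * i / n := by ring
      rw [h6, h7]
      linarith
    have h2 := norm_one_sub_le ρ θ hρ0 hw1.le
    rw [abs_of_nonneg hθ0] at h2
    have h3 : ‖1 - (ρ : ℂ) * Complex.exp (Complex.I * θ)‖ ≤ 8 * ((i : ℝ) + 1) / n := by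
      refine h2.trans ?_
      have h4 : 1 - ρ ≤ 1 / n := by linarith
      have h5 : (1 : ℝ) / n + 2 * Real.pi * (i + 1) / n ≤ 8 * ((i : ℝ) + 1) / n := by
        rw [← add_div]
        apply div_le_div_of_nonneg_right _ hn0.le
        have h6 : (0 : ℝ) ≤ i := Nat.cast_nonneg i
        nlinarith
      linarith
    have h4 : 0 < ‖1 - (ρ : ℂ) * Complex.exp (Complex.I * θ)‖ := by
      rw [norm_pos_iff, sub_ne_zero]
      intro h5
      have h6 : ‖(ρ : ℂ) * Complex.exp (Complex.I * θ)‖ = ρ := by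
        rw [norm_mul, Complex.norm_real, Real.norm_of_nonneg hρ0, mul_comm Complex.I, Complex.norm_exp_ofReal_mul_I, mul_one]
      rw [← h5, norm_one] at h6
      linarith
    calc (n : ℝ) / (8 * ((i : ℝ) + 1)) = 1 / (8 * ((i : ℝ) + 1) / n) := by
          rw [one_div_div]
      _ ≤ _ := one_div_le_one_div_of_le h4 h3
  have hsum : ∑ i ∈ range n, (n : ℝ) / (8 * ((i : ℝ) + 1)) ≤
      ∑ l ∈ range n, 1 / ‖1 - Complex.exp (2 * Real.pi * Complex.I * (l / n)) * w‖ := by
    refine (sum_le_sum hterm).trans ?_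
    rw [← sum_image (f := fun l : ℕ => 1 / ‖1 - Complex.exp (2 * Real.pi * Complex.I * ((l : ℕ) / n)) * w‖) hinj]
    apply sum_le_sum_of_subset_of_nonneg
    · intro l hl
      rw [mem_image] at hl
      obtain ⟨i, _, rfl⟩ := hl
      rw [mem_range]
      exact hlt i
    · intro l _ _
      positivity
  calc (∑ i ∈ range n, 1 / ((i : ℝ) + 1)) / 8 = (1 / (n : ℝ)) * ∑ i ∈ range n, (n : ℝ) / (8 * ((i : ℝ) + 1)) := by
        rw [sum_div, mul_sum]
        apply sum_congr rfl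
        intro i _
        have : (0 : ℝ) < (i : ℝ) + 1 := by positivity
        field_simp
    _ ≤ _ := mul_le_mul_of_nonneg_left hsum (by positivity)

end Run7.h304.RP
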