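import Pool.Agent.Run7.h81.RP.I

/-!
# Piece GAUSS of project RP (helper81)
-/

set_option autoImplicit false

namespace Run7.h304.RP

open Finset
open Pool.Agent.Run7.h81.RP

lemma exp_neg_le (x : ℝ) (hx : 0 < x) : Real.exp (-x) ≤ 1 / x := by
  rw [Real.exp_neg, ← one_div]
  apply one_div_le_one_div_of_le hx
  have := Real.add_one_le_exp x
  linarith

/-- `∑_{i ∈ I} exp (-16 (t - i)²) ≤ 2` -/
lemma gauss_int (I : Finset ℕ) (t : ℝ) : ∑ i ∈ I, Real.exp (-(16 * (t - i) ^ 2)) ≤ 2 := by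
  classical
  set m : ℤ := round t with hm
  have hmt : |t - m| ≤ 1 / 2 := abs_sub_round t
  -- bound of the terms
  have hterm : ∀ i : ℕ, (i : ℤ) ≠ m → Real.exp (-(16 * (t - i) ^ 2)) ≤ 1 / (4 * ((|(i : ℤ) - m| : ℤ) : ℝ) ^ 2) := by
    intro i hi
    have h1 : (1 : ℝ) ≤ ((|(i : ℤ) - m| : ℤ) : ℝ) := by
      have : (1 : ℤ) ≤ |(i : ℤ) - m| := Int.one_le_abs (sub_ne_zero.2 hi)
      exact_mod_cast this
    have h2 : ((|(i : ℤ) - m| : ℤ) : ℝ) = |(i : ℝ) - m| := by push_cast; rfl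
    have h3 : |(i : ℝ) - m| / 2 ≤ |t - i| := by
      have h4 : |(i : ℝ) - m| ≤ |t - m| + |t - i| := by
        have : (i : ℝ) - m = (t - m) - (t - i) := by ring
        rw [this]
        exact abs_sub _ _
      have h5 : (1 : ℝ) ≤ |(i : ℝ) - m| := by rw [← h2]; exact h1
      linarith
    have h6 : 4 * ((|(i : ℤ) - m| : ℤ) : ℝ) ^ 2 ≤ 16 * (t - i) ^ 2 := by
      rw [h2]
      have h7 : (|(i : ℝ) - m| / 2) ^ 2 ≤ |t - i| ^ 2 := pow_le_pow_left₀ (by positivity) h3 2
      rw [sq_abs (t - i)] at h7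
      nlinarith
    calc Real.exp (-(16 * (t - i) ^ 2)) ≤ Real.exp (-(4 * ((|(i : ℤ) - m| : ℤ) : ℝ) ^ 2)) := by
          apply Real.exp_le_exp.2
          linarith
      _ ≤ _ := exp_neg_le _ (by positivity)
  -- the three parts
  have hsplit : ∑ i ∈ I, Real.exp (-(16 * (t - i) ^ 2)) =
      ∑ i ∈ I.filter (fun i : ℕ => (i : ℤ) = m), Real.exp (-(16 * (t - i) ^ 2)) +
      (∑ i ∈ I.filter (fun i : ℕ => m < (i : ℤ)), Real.exp (-(16 * (t - i) ^ 2)) +
        ∑ i ∈ I.filter (fun i : ℕ => (i : ℤ) < m), Real.exp (-(16 * (t - i) ^ 2))) := by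
    rw [sum_filter, sum_filter, sum_filter, ← sum_add_distrib, ← sum_add_distrib]
    apply sum_congr rfl
    intro i _
    rcases lt_trichotomy (i : ℤ) m with h | h | h
    · rw [if_neg h.ne, if_neg (by omega), if_pos h]; ring
    · rw [if_pos h, if_neg (by omega), if_neg (by omega)]; ring
    · rw [if_neg h.ne', if_pos h, if_neg (by omega)]; ring
  have hA : ∑ i ∈ I.filter (fun i : ℕ => (i : ℤ) = m), Real.exp (-(16 * (t - i) ^ 2)) ≤ 1 := by
    have h1 : #(I.filter (fun i : ℕ => (i : ℤ) = m)) ≤ 1 := by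
      rw [card_le_one]
      intro x hx y hy
      rw [mem_filter] at hx hy
      have := hx.2.trans hy.2.symm
      exact_mod_cast this
    calc ∑ i ∈ I.filter (fun i : ℕ => (i : ℤ) = m), Real.exp (-(16 * (t - i) ^ 2))
        ≤ ∑ _i ∈ I.filter (fun i : ℕ => (i : ℤ) = m), (1 : ℝ) := by
          apply sum_le_sum
          intro i _
          rw [Real.exp_le_one_iff]
          nlinarith [sq_nonneg (t - i)]
      _ = #(I.filter (fun i : ℕ => (i : ℤ) = m)) := by simp
      _ ≤ 1 := by exact_mod_cast h1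
  -- sums of inverse squares
  have hsq : ∀ N : ℕ, ∑ n ∈ Ioc 0 N, ((n : ℝ) ^ 2)⁻¹ ≤ 2 := by
    intro N
    rcases Nat.eq_zero_or_pos N with h0 | h0
    · subst h0; simp
    have h1 := sum_Ioc_inv_sq_le_sub (α := ℝ) (k := 1) one_ne_zero (show 1 ≤ N from h0)
    have h2 : Ioc 0 N = insert 1 (Ioc 1 N) := by
      ext n
      simp only [mem_Ioc, mem_insert]
      omega
    rw [h2, sum_insert (by simp)]
    have : (0 : ℝ) ≤ (N : ℝ)⁻¹ := by positivity
    norm_num at h1 ⊢
    linarith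
  have himg : ∀ (S : Finset ℕ) (e : ℕ → ℕ), Set.InjOn e S → (∀ i ∈ S, 0 < e i) →
      ∑ i ∈ S, 1 / (4 * ((e i : ℕ) : ℝ) ^ 2) ≤ 1 / 2 := by
    intro S e he hpos
    have h1 : ∑ i ∈ S, 1 / (4 * ((e i : ℕ) : ℝ) ^ 2) = ∑ n ∈ S.image e, 1 / (4 * (n : ℝ) ^ 2) := by
      rw [sum_image he]
    have h2 : S.image e ⊆ Ioc 0 ((S.image e).sup id) := by
      intro n hn
      rw [mem_Ioc]
      refine ⟨?_, le_sup (f := id) hn⟩
      rw [mem_image] at hn
      obtain ⟨i, hi, rfl⟩ := hn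
      exact hpos i hi
    rw [h1]
    refine (sum_le_sum_of_subset_of_nonneg h2 (fun _ _ _ => by positivity)).trans ?_
    have h3 := hsq ((S.image e).sup id)
    have h4 : ∑ n ∈ Ioc 0 ((S.image e).sup id), 1 / (4 * (n : ℝ) ^ 2) =
        1 / 4 * ∑ n ∈ Ioc 0 ((S.image e).sup id), ((n : ℝ) ^ 2)⁻¹ := by
      rw [mul_sum]
      apply sum_congr rfl
      intro n _
      rw [one_div, mul_inv]
      ring
    rw [h4]
    linarith
  have hB : ∑ i ∈ I.filter (fun i : ℕ => m < (i : ℤ)), Real.exp (-(16 * (t - i) ^ 2)) ≤ 1 / 2 := by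
    refine le_trans (sum_le_sum (fun i hi => ?_))
      (himg (I.filter (fun i : ℕ => m < (i : ℤ))) (fun i => ((i : ℤ) - m).toNat) ?_ ?_)
    · rw [mem_filter] at hi
      refine (hterm i (by omega)).trans (le_of_eq ?_)
      have h1 : ((|(i : ℤ) - m| : ℤ) : ℝ) = ((((i : ℤ) - m).toNat : ℕ) : ℝ) := by
        have : |(i : ℤ) - m| = ((((i : ℤ) - m).toNat : ℕ) : ℤ) := by
          rw [Int.toNat_of_nonneg (by omega), abs_of_pos (by omega)]
        rw [this]
        exact Int.cast_natCast _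
      rw [h1]
    · intro x hx y hy hxy
      rw [mem_coe, mem_filter] at hx hy
      simp only at hxy
      omega
    · intro i hi
      rw [mem_filter] at hi
      omega
  have hC : ∑ i ∈ I.filter (fun i : ℕ => (i : ℤ) < m), Real.exp (-(16 * (t - i) ^ 2)) ≤ 1 / 2 := by
    refine le_trans (sum_le_sum (fun i hi => ?_))
      (himg (I.filter (fun i : ℕ => (i : ℤ) < m)) (fun i => (m - (i : ℤ)).toNat) ?_ ?_)
    · rw [mem_filter] at hi
      refine (hterm i (by omega)).trans (le_of_eq ?_)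
      have h1 : ((|(i : ℤ) - m| : ℤ) : ℝ) = (((m - (i : ℤ)).toNat : ℕ) : ℝ) := by
        have : |(i : ℤ) - m| = (((m - (i : ℤ)).toNat : ℕ) : ℤ) := by
          rw [Int.toNat_of_nonneg (by omega), abs_of_neg (by omega)]
          ring
        rw [this]
        exact Int.cast_natCast _
      rw [h1]
    · intro x hx y hy hxy
      rw [mem_coe, mem_filter] at hx hy
      simp only at hxy
      omega
    · intro i hi
      rw [mem_filter] at hi
      omega
  rw [hsplit]
  linarith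

/-- piece GAUSS -/
theorem gauss : S_GAUSS := by
  classical
  intro K o J X hK hJ
  have hK0 : (0 : ℝ) < K := by exact_mod_cast hK
  set t : ℝ := (X - o) / (16 * K) with ht
  have h1 : ∀ j ∈ J, Real.exp (-(X - j) ^ 2 / (16 * (K : ℝ) ^ 2)) =
      Real.exp (-(16 * (t - ((j / (16 * K) : ℕ) : ℝ)) ^ 2)) := by
    intro j hj
    congr 1
    have h2 : (j : ℝ) = o + 16 * K * ((j / (16 * K) : ℕ) : ℝ) := by
      have h3 := Nat.mod_add_div j (16 * K)
      rw [hJ j hj] at h3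
      exact_mod_cast h3.symm
    set i : ℝ := ((j / (16 * K) : ℕ) : ℝ)
    rw [h2, ht]
    field_simp
    ring
  rw [sum_congr rfl h1]
  have hinj : Set.InjOn (fun j : ℕ => j / (16 * K)) J := by
    intro x hx y hy hxy
    simp only at hxy
    have h3 := Nat.mod_add_div x (16 * K)
    have h4 := Nat.mod_add_div y (16 * K)
    rw [hJ x hx] at h3
    rw [hJ y hy] at h4
    rw [← h3, ← h4, hxy]
  rw [← sum_image (f := fun i : ℕ => Real.exp (-(16 * (t - (i : ℝ)) ^ 2))) hinj]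
  exact gauss_int _ _

end Run7.h304.RP
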