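import Pool.Agent.Run7.h81.RP.I

/-!
# Piece ORTH of project RP (helper81)
-/

set_option autoImplicit false

namespace Run7.h304.RP

open Finset MeasureTheory
open Pool.Agent.Run7.h81.RP

lemma BI_sub : BI ⊆ B := fun _ hz => hz.1

lemma intC (hI : S_INT) (G : (Fin 2 → ℂ) → ℂ) (hG : Continuous G) : IntegrableOn (fun z => G (u z)) B := by
  have h1 := hI (fun x => (G x).re) (Complex.continuous_re.comp hG)
  have h2 := hI (fun x => (G x).im) (Complex.continuous_im.comp hG)
  have h3 := (Integrable.re_im_iff (𝕜 := ℂ) (f := fun z => G (u z)) (μ := volume.restrict B)).1 ⟨h1, h2⟩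
  exact h3

/-- the product of two monomials -/
noncomputable def mm (m m' : Fin 2 →₀ ℕ) (x : Fin 2 → ℂ) : ℂ :=
  (x 0 ^ m 0 * x 1 ^ m 1) * (starRingEnd ℂ) (x 0 ^ m' 0 * x 1 ^ m' 1)

lemma mm_cont (m m' : Fin 2 →₀ ℕ) : Continuous (mm m m') := by
  unfold mm
  have h0 : Continuous (fun x : Fin 2 → ℂ => x 0) := continuous_apply 0
  have h1 : Continuous (fun x : Fin 2 → ℂ => x 1) := continuous_apply 1
  exact ((h0.pow _).mul (h1.pow _)).mul (Complex.continuous_conj.comp ((h0.pow _).mul (h1.pow _)))

lemma ev_eq (x : Fin 2 → ℂ) (p : Pol) :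
    ev x p = ∑ m ∈ p.support, MvPolynomial.coeff m p * (x 0 ^ m 0 * x 1 ^ m 1) := by
  unfold ev
  rw [MvPolynomial.eval_eq']
  apply sum_congr rfl
  intro m _
  rw [Fin.prod_univ_two]

/-- piece ORTH -/
theorem orth (hM : S_MONO) (hI : S_INT) : S_ORTH := by
  refine ⟨fun p q hpq => ?_, fun p => ?_⟩
  · have h1 : ∀ z, ev (u z) p * (starRingEnd ℂ) (ev (u z) q) =
        ∑ m ∈ p.support, ∑ m' ∈ q.support,
          (MvPolynomial.coeff m p * (starRingEnd ℂ) (MvPolynomial.coeff m' q)) * mm m m' (u z) := by
      intro z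
      rw [ev_eq, ev_eq, map_sum, sum_mul_sum]
      apply sum_congr rfl
      intro m _
      apply sum_congr rfl
      intro m' _
      unfold mm
      rw [map_mul]
      ring
    simp only [h1]
    have hint : ∀ m m' : Fin 2 →₀ ℕ, IntegrableOn (fun z =>
        (MvPolynomial.coeff m p * (starRingEnd ℂ) (MvPolynomial.coeff m' q)) * mm m m' (u z)) BI := by
      intro m m'
      exact ((intC hI (mm m m') (mm_cont m m')).mono_set BI_sub).const_mul _
    rw [integral_finsetSum _ (fun m _ => integrable_finsetSum _ (fun m' _ => hint m m'))]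
    apply sum_eq_zero
    intro m hm
    rw [integral_finsetSum _ (fun m' _ => hint m m')]
    apply sum_eq_zero
    intro m' hm'
    rw [integral_const_mul]
    have hne : m ≠ m' := by
      rintro rfl
      exact (Finset.disjoint_left.1 hpq) hm hm'
    have h2 : ∫ z in BI, mm m m' (u z) = 0 := (hM m m' hne).1
    rw [h2, mul_zero]
  · have h1 : ∀ z, ev (u z) p = ∑ m ∈ p.support, MvPolynomial.coeff m p * mm m 0 (u z) := by
      intro z
      rw [ev_eq]
      apply sum_congr rfl
      intro m _
      unfold mm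
      simp
    simp only [h1]
    rw [integral_finsetSum _ (fun m _ => ((intC hI (mm m 0) (mm_cont m 0)).const_mul _))]
    have h2 : ∀ m ∈ p.support, ∫ z in B, MvPolynomial.coeff m p * mm m 0 (u z) =
        if m = 0 then MvPolynomial.coeff 0 p * (volume.real B : ℂ) else 0 := by
      intro m _
      rw [integral_const_mul]
      split_ifs with h
      · subst h
        congr 1
        have h3 : ∀ z, mm 0 0 (u z) = 1 := by
          intro z
          unfold mm
          simp
        simp only [h3]
        rw [setIntegral_const]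
        simp
      · have h3 : ∫ z in B, mm m 0 (u z) = 0 := (hM m 0 h).2
        rw [h3, mul_zero]
    rw [sum_congr rfl h2]
    rw [sum_ite_eq']
    split_ifs with h
    · rfl
    · rw [MvPolynomial.notMem_support_iff] at h
      rw [MvPolynomial.constantCoeff_eq, h, zero_mul]

end Run7.h304.RP
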